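import Pool.Agent.FS.LinearFC.Ville

namespace Pool.Agent.FS.LinearFC

open Finset

section Assign

variable {α : Type*} [DecidableEq α]

/-- indicator that `y` is the first point of `U` in the list -/
noncomputable def asA : List α → Finset α → α → ℝ
  | [], _, _ => 0
  | x :: l, U, y => if x ∈ U then (if y = x then 1 else 0) else asA l U y

/-- two to the number of points after `y` -/
noncomputable def asB : List α → α → ℝ
  | [], _ => 0
  | x :: l, y => if y = x then 2 ^ l.length else asB l y

lemma asA_nonneg (L : List α) (U : Finset α) (y : α) : 0 ≤ asA L U y := by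
  induction L with
  | nil => simp [asA]
  | cons x l ih =>
    simp only [asA]
    split_ifs
    · exact zero_le_one
    · exact le_rfl
    · exact ih

lemma asB_nonneg (L : List α) (y : α) : 0 ≤ asB L y := by
  induction L with
  | nil => simp [asB]
  | cons x l ih =>
    simp only [asB]
    split_ifs
    · positivity
    · exact ih

lemma asA_sum (L : List α) (U : Finset α) (hU : U ⊆ L.toFinset) (hne : U.Nonempty) :
    1 ≤ ∑ y ∈ U, asA L U y := by
  induction L with
  | nil =>
    obtain ⟨y, hy⟩ := hne
    simpa using hU hy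
  | cons x l ih =>
    by_cases hx : x ∈ U
    · simp [asA, hx]
    · have h2 : U ⊆ l.toFinset := by
        intro y hy
        have := hU hy
        rw [List.toFinset_cons, Finset.mem_insert] at this
        rcases this with rfl | h
        · exact absurd hy hx
        · exact h
      simpa [asA, hx] using ih h2

lemma asB_sum (L : List α) (hL : L.Nodup) :
    ∑ y ∈ L.toFinset, asB L y = 2 ^ L.length - 1 := by
  induction L with
  | nil => simp
  | cons x l ih =>
    obtain ⟨hx, hl⟩ := List.nodup_cons.1 hL
    have hx' : x ∉ l.toFinset := by simpa using hx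
    rw [List.toFinset_cons, Finset.sum_insert hx']
    have h2 : ∑ y ∈ l.toFinset, asB (x :: l) y = ∑ y ∈ l.toFinset, asB l y := by
      refine Finset.sum_congr rfl fun y hy => ?_
      have : y ≠ x := fun h => hx' (h ▸ hy)
      simp [asB, this]
    rw [h2, ih hl]
    simp only [asB, if_true, List.length_cons]
    ring

lemma as_pow (q n : ℕ) (h : q ≤ n) : ((q : ℝ) + 1) * 2 ^ (n - q) ≤ 2 ^ n := by
  have h1 : ((q : ℝ) + 1) ≤ 2 ^ q := by
    have : q + 1 ≤ 2 ^ q := Nat.lt_two_pow_self
    exact_mod_cast this
  calc ((q : ℝ) + 1) * 2 ^ (n - q) ≤ 2 ^ q * 2 ^ (n - q) := by gcongr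
    _ = 2 ^ n := by rw [← pow_add]; congr 1; omega

lemma asA_load (L : List α) (hL : L.Nodup) (y : α) (hy : y ∈ L.toFinset) (Q : Finset α)
    (hQ : Q ⊆ L.toFinset.erase y) :
    ((Q.card : ℝ) + 1) * ∑ U ∈ L.toFinset.powerset.filter (fun U => insert y Q ⊆ U), asA L U y
      ≤ asB L y := by
  induction L with
  | nil => simp at hy
  | cons x l ih =>
    obtain ⟨hx, hl⟩ := List.nodup_cons.1 hL
    have hx' : x ∉ l.toFinset := by simpa using hx
    by_cases hyx : y = x
    · subst hyx
      have hyQ : y ∉ Q := fun h => (Finset.mem_erase.1 (hQ h)).1 rfl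
      have hsub : insert y Q ⊆ (y :: l).toFinset :=
        Finset.insert_subset hy (hQ.trans (Finset.erase_subset _ _))
      have h1 : ∑ U ∈ (y :: l).toFinset.powerset.filter (fun U => insert y Q ⊆ U),
          asA (y :: l) U y = ((2 : ℝ) ^ (l.length - Q.card)) := by
        rw [Finset.sum_congr rfl (g := fun _ => (1 : ℝ))]
        · rw [Finset.sum_const, nsmul_eq_mul, mul_one, ← Finset.Icc_eq_filter_powerset,
            Finset.card_Icc_finset hsub, List.toFinset_card_of_nodup hL,
            Finset.card_insert_of_notMem hyQ, List.length_cons, Nat.add_sub_add_right]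
          push_cast
          rfl
        · intro U hU
          have : y ∈ U := (Finset.mem_filter.1 hU).2 (Finset.mem_insert_self _ _)
          simp [asA, this]
      have h2 : Q.card ≤ l.length := by
        have := Finset.card_le_card hsub
        rw [List.toFinset_card_of_nodup hL, Finset.card_insert_of_notMem hyQ,
          List.length_cons] at this
        omega
      rw [h1]
      simpa [asB] using as_pow Q.card l.length h2
    · have hy' : y ∈ l.toFinset := by
        rw [List.toFinset_cons, Finset.mem_insert] at hy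
        exact hy.resolve_left hyx
      have hb : asB (x :: l) y = asB l y := by simp [asB, hyx]
      rw [hb]
      by_cases hxQ : x ∈ Q
      · rw [Finset.sum_eq_zero, mul_zero]
        · exact asB_nonneg l y
        · intro U hU
          have : x ∈ U := (Finset.mem_filter.1 hU).2 (Finset.mem_insert_of_mem hxQ)
          simp [asA, this, hyx]
      · have hQ' : Q ⊆ l.toFinset.erase y := by
          intro z hz
          have h1 := Finset.mem_erase.1 (hQ hz)
          rw [List.toFinset_cons, Finset.mem_insert] at h1
          refine Finset.mem_erase.2 ⟨h1.1, h1.2.resolve_left ?_⟩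
          rintro rfl
          exact hxQ hz
        refine le_trans (le_of_eq ?_) (ih hl hy' hQ')
        congr 1
        symm
        refine (Finset.sum_congr rfl fun U hU => ?_).trans
          (Finset.sum_subset (f := fun U => asA (x :: l) U y) ?_ ?_)
        · have h1 : U ⊆ l.toFinset := Finset.mem_powerset.1 (Finset.mem_filter.1 hU).1
          have : x ∉ U := fun h => hx' (h1 h)
          simp [asA, this]
        · intro U hU
          rw [Finset.mem_filter, Finset.mem_powerset] at hU ⊢
          refine ⟨hU.1.trans ?_, hU.2⟩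
          rw [List.toFinset_cons]
          exact Finset.subset_insert _ _
        · intro U hU hn
          rw [Finset.mem_filter, Finset.mem_powerset] at hU hn
          have : x ∈ U := by
            by_contra hxU
            refine hn ⟨fun z hz => ?_, hU.2⟩
            have h1 := hU.1 hz
            rw [List.toFinset_cons, Finset.mem_insert] at h1
            refine h1.resolve_left ?_
            rintro rfl
            exact hxU hz
          simp [asA, this, hyx]

lemma as_order (c l : α → ℝ) (V : Finset α) :
    (∀ Y ⊆ V, (2 : ℝ) ^ Y.card - 1 ≤ ∑ y ∈ Y, c y) →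
    ∃ L : List α, L.Nodup ∧ L.toFinset = V ∧ ∀ t : ℝ, (∀ y ∈ V, t ≤ l y) →
      0 ≤ ∑ y ∈ V, (l y - t) * (c y - asB L y) := by
  induction V using Finset.induction_on_min_value l with
  | empty => exact fun _ => ⟨[], List.nodup_nil, rfl, fun _ _ => by simp⟩
  | insert x s hx hmin ih =>
    intro h
    obtain ⟨L, hL, hV, hs⟩ := ih fun Y hY => h Y (hY.trans (Finset.subset_insert _ _))
    have hxL : x ∉ L := fun hh => hx (hV ▸ List.mem_toFinset.2 hh)
    have hnd : (x :: L).Nodup := List.nodup_cons.2 ⟨hxL, hL⟩
    have hV' : (x :: L).toFinset = insert x s := by rw [List.toFinset_cons, hV]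
    refine ⟨x :: L, hnd, hV', fun t ht => ?_⟩
    have h1 : 0 ≤ ∑ y ∈ insert x s, (c y - asB (x :: L) y) := by
      have h2 := asB_sum (x :: L) hnd
      have h3 := h _ (Finset.Subset.refl _)
      rw [← List.toFinset_card_of_nodup hnd, hV'] at h2
      rw [Finset.sum_sub_distrib, h2]
      linarith
    have h2 : 0 ≤ ∑ y ∈ insert x s, (l y - l x) * (c y - asB (x :: L) y) := by
      rw [Finset.sum_insert hx, sub_self, zero_mul, zero_add]
      refine (hs (l x) hmin).trans (le_of_eq (Finset.sum_congr rfl fun y hy => ?_))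
      have : y ≠ x := fun hh => hx (hh ▸ hy)
      simp [asB, this]
    have h3 : ∑ y ∈ insert x s, (l y - t) * (c y - asB (x :: L) y)
        = (l x - t) * ∑ y ∈ insert x s, (c y - asB (x :: L) y)
          + ∑ y ∈ insert x s, (l y - l x) * (c y - asB (x :: L) y) := by
      rw [Finset.mul_sum, ← Finset.sum_add_distrib]
      exact Finset.sum_congr rfl fun y _ => by ring
    rw [h3]
    have h4 : 0 ≤ l x - t := sub_nonneg.2 (ht x (Finset.mem_insert_self _ _))
    positivity

end Assign

theorem assign {α : Type*} [DecidableEq α] (V : Finset α) (c : α → ℝ)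
    (h : ∀ Y ⊆ V, (2 : ℝ) ^ Y.card - 1 ≤ ∑ y ∈ Y, c y) :
    ∃ a : Finset α → α → ℝ, (∀ U y, 0 ≤ a U y) ∧
      (∀ U ⊆ V, U.Nonempty → 1 ≤ ∑ y ∈ U, a U y) ∧
      ∀ y ∈ V, ∀ Q ⊆ V.erase y, ((Q.card : ℝ) + 1) *
        ∑ U ∈ V.powerset.filter (fun U => insert y Q ⊆ U), a U y ≤ c y := by
  have hJ : ∀ L : List α, L ∈ V.toList.permutations.toFinset ↔ L.Nodup ∧ L.toFinset = V := by
    intro L
    rw [List.mem_toFinset, List.mem_permutations]
    constructor
    · intro hp
      exact ⟨hp.nodup_iff.2 V.nodup_toList, by
        rw [List.toFinset_eq_of_perm _ _ hp, Finset.toList_toFinset]⟩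
    · rintro ⟨h1, h2⟩
      exact List.perm_of_nodup_nodup_toFinset_eq h1 V.nodup_toList
        (by rw [h2, Finset.toList_toFinset])
  generalize V.toList.permutations.toFinset = J at hJ
  rcases ville V J (fun y L => c y - asB L y) with ⟨w, hw, ⟨j, hj, hpos⟩, hA⟩ | ⟨l, hl, hA⟩
  · have hS : 0 < ∑ L ∈ J, w L := Finset.sum_pos' (fun L _ => hw L) ⟨j, hj, hpos⟩
    refine ⟨fun U y => (∑ L ∈ J, w L * asA L U y) / ∑ L ∈ J, w L, fun U y => ?_,
      fun U hU hne => ?_, fun y hy Q hQ => ?_⟩
    · exact div_nonneg (Finset.sum_nonneg fun L _ => mul_nonneg (hw L) (asA_nonneg L U y)) hS.le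
    · rw [← Finset.sum_div, le_div_iff₀ hS, one_mul, Finset.sum_comm]
      refine Finset.sum_le_sum fun L hL => ?_
      rw [← Finset.mul_sum]
      have := asA_sum L U (((hJ L).1 hL).2 ▸ hU) hne
      nlinarith [hw L]
    · rw [← Finset.sum_div, ← mul_div_assoc, div_le_iff₀ hS, Finset.sum_comm, Finset.mul_sum]
      have h1 : ∑ L ∈ J, w L * asB L y ≤ c y * ∑ L ∈ J, w L := by
        have h2 := hA y hy
        have h3 : ∑ L ∈ J, (c y - asB L y) * w L
            = c y * ∑ L ∈ J, w L - ∑ L ∈ J, w L * asB L y := by
          rw [Finset.mul_sum, ← Finset.sum_sub_distrib]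
          exact Finset.sum_congr rfl fun L _ => by ring
        rw [h3] at h2
        linarith
      refine le_trans (Finset.sum_le_sum fun L hL => ?_) h1
      obtain ⟨hn, hV⟩ := (hJ L).1 hL
      have h2 := asA_load L hn y (hV ▸ hy) Q (hV ▸ hQ)
      rw [hV] at h2
      rw [← Finset.mul_sum, mul_left_comm]
      exact mul_le_mul_of_nonneg_left h2 (hw L)
  · exfalso
    obtain ⟨L, hn, hV, hs⟩ := as_order c l V h
    have h1 := hs 0 fun y _ => hl y
    have h2 := hA L ((hJ L).2 ⟨hn, hV⟩)
    simp only [sub_zero] at h1
    linarith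

end Pool.Agent.FS.LinearFC
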