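import Pool.Agent.FS.LinearSpaces.Glue

/-! Gluing test families with real multiplicities. -/

namespace Pool.Agent.FS.LinearFC

open Finset Pool.Agent.FS.LinearSpaces

theorem glue_real {α ι : Type*} [DecidableEq α] [Infinite α] (X : Finset α) (hX : X.Nonempty)
    (L : Finset (Finset α)) (hL : ∀ T ∈ L, T ⊆ X) (I : Finset ι) (B : ι → Finset (Finset α))
    (hBX : ∀ i ∈ I, ∀ S ∈ B i, S ⊆ X) (hBu : ∀ i ∈ I, ∀ S ∈ B i, ∀ S' ∈ B i, S ∪ S' ∈ B i)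
    (hBL : ∀ i ∈ I, ∀ S ∈ B i, ∀ T ∈ L, T ∪ S ∈ B i) (l : ι → ℝ) (l0 : ∀ i, 0 ≤ l i)
    (hl : ∀ z ∈ X, ∑ i ∈ I, l i * ((∑ S ∈ B i, sg z S : ℤ) : ℝ) < 0) :
    ∃ F : Finset (Finset α), (∀ A ∈ F, ∀ A' ∈ F, A ∪ A' ∈ F) ∧ L ⊆ F ∧
      ∀ z ∈ X, 2 * (F.filter (fun S => z ∈ S)).card < F.card := by
  classical
  set σ : ι → α → ℝ := fun i z => ((∑ S ∈ B i, sg z S : ℤ) : ℝ) with hσ
  have hev : ∀ᶠ N : ℝ in Filter.atTop, ∀ z ∈ X,
      (2 ^ X.card + 3 * ∑ i ∈ I, |σ i z|) / (- ∑ i ∈ I, l i * σ i z) < N :=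
    (Filter.eventually_all_finset X).2 fun z _ => Filter.eventually_gt_atTop _
  obtain ⟨N, hN, hN0⟩ := (hev.and (Filter.eventually_ge_atTop 0)).exists
  obtain ⟨n, hn2, r1⟩ : ∃ n : ι → ℕ, (∀ i, 2 ≤ n i) ∧ ∀ i, |(n i : ℝ) - N * l i| ≤ 3 := by
    refine ⟨fun i => ⌈N * l i⌉₊ + 2, fun i => Nat.le_add_left _ _, fun i => ?_⟩
    have a := Nat.le_ceil (N * l i)
    have b := Nat.ceil_lt_add_one (mul_nonneg hN0 (l0 i))
    push_cast
    exact abs_le.2 ⟨by linarith, by linarith⟩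
  obtain ⟨x0, hx0⟩ := hX
  obtain ⟨i0, hi0⟩ : I.Nonempty := by
    refine nonempty_iff_ne_empty.2 fun e => ?_
    simpa [e] using hl x0 hx0
  let κ := Σ i : I, Fin (n i)
  have : Nontrivial κ := ⟨⟨⟨⟨i0, hi0⟩, ⟨0, lt_of_lt_of_le (by norm_num) (hn2 i0)⟩⟩,
    ⟨⟨i0, hi0⟩, ⟨1, lt_of_lt_of_le (by norm_num) (hn2 i0)⟩⟩, fun h => by
      have := congrArg (fun i : κ => (i.2 : ℕ)) h
      simp at this⟩⟩
  have hinf : ((X : Set α)ᶜ).Infinite := X.finite_toSet.infinite_compl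
  let e := hinf.natEmbedding
  let y : κ → α := fun i => (e (Fintype.equivFin κ i) : α)
  have hy : Function.Injective y := fun i j h =>
    (Fintype.equivFin κ).injective (Fin.ext (e.injective (Subtype.ext h)))
  have hyX : ∀ i, y i ∉ X := fun i => (e (Fintype.equivFin κ i)).2
  obtain ⟨F, hF, hLF, hsum⟩ := glue X L hL y hy hyX (fun i => B i.1) (fun i => hBX _ i.1.2)
    (fun i => hBu _ i.1.2) (fun i => hBL _ i.1.2)
  refine ⟨F, hF, hLF, fun z hz => ?_⟩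
  have h1 := hsum z hz
  have h2 : ∑ i : κ, ∑ S ∈ B i.1, sg z S = ∑ i ∈ I, (n i : ℤ) * ∑ S ∈ B i, sg z S := by
    rw [Fintype.sum_sigma, ← sum_coe_sort I]
    refine sum_congr rfl (fun x _ => ?_)
    show ∑ _j : Fin (n x), ∑ S ∈ B x, sg z S = _
    rw [sum_const, card_univ, Fintype.card_fin, nsmul_eq_mul]
  rw [h2, sum_sg] at h1
  set D : ℤ := ∑ i ∈ I, (n i : ℤ) * ∑ S ∈ B i, sg z S with hD
  have h3 : (D : ℝ) ≤ N * ∑ i ∈ I, l i * σ i z + 3 * ∑ i ∈ I, |σ i z| := by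
    rw [hD, Int.cast_sum, mul_sum, mul_sum, ← sum_add_distrib]
    refine sum_le_sum (fun i _ => ?_)
    rw [Int.cast_mul, Int.cast_natCast]
    have a : ((n i : ℝ) - N * l i) * σ i z ≤ 3 * |σ i z| :=
      (le_abs_self _).trans (by rw [abs_mul]; gcongr; exact r1 i)
    show (n i : ℝ) * σ i z ≤ _
    linarith
  have h5 := hN z hz
  rw [div_lt_iff₀ (neg_pos.2 (hl z hz))] at h5
  have h8 : (D : ℝ) < - 2 ^ X.card := by linarith
  have h8' : D < - 2 ^ X.card := by exact_mod_cast h8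
  have h9 : 2 * ((F.filter (fun S => z ∈ S)).card : ℤ) < F.card := by linarith
  exact_mod_cast h9

end Pool.Agent.FS.LinearFC
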