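import Pool.Agent.FS.LinearFC.Assign
import Pool.Agent.FS.SpectralFC.WFlow
import Pool.Agent.FS.LinearSpaces.Main

/-! Weights satisfying the local inequalities force an abundant point. -/

namespace Pool.Agent.FS.LinearFC

open Finset Pool.Agent.Lib.MP_dbcba7_co.Mo Pool.Agent.FS.LinearSpaces Pool.Agent.FS.SpectralFC

variable {α : Type*} [DecidableEq α]

theorem share2 (V : Finset α) (hV : V.Nonempty) (c : α → ℝ) (h0 : ∀ y ∈ V, 0 ≤ c y) :
    ∃ (Y : Finset α) (a : Finset α → α → ℝ), Y.Nonempty ∧ Y ⊆ V ∧ (∀ U y, 0 ≤ a U y) ∧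
      (∀ U ⊆ V, U.Nonempty → (∑ y ∈ Y, c y) / (2 ^ Y.card - 1) ≤ ∑ y ∈ U, a U y) ∧
      ∀ y ∈ V, ∀ Q ⊆ V.erase y,
        ((Q.card : ℝ) + 1) * ∑ U ∈ V.powerset.filter (fun U => insert y Q ⊆ U), a U y ≤ c y := by
  have pos : ∀ Z : Finset α, Z.Nonempty → (0 : ℝ) < 2 ^ Z.card - 1 := fun Z hZ =>
    sub_pos.2 (one_lt_pow₀ (by norm_num) (card_pos.2 hZ).ne')
  obtain ⟨Y, hY, hmin⟩ := exists_min_image (V.powerset.filter (fun Z => Z.Nonempty))
    (fun Z => (∑ y ∈ Z, c y) / (2 ^ Z.card - 1)) ⟨V, mem_filter.2 ⟨mem_powerset_self _, hV⟩⟩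
  obtain ⟨hYV, hYn⟩ := mem_filter.1 hY
  rw [mem_powerset] at hYV
  set m : ℝ := (∑ y ∈ Y, c y) / (2 ^ Y.card - 1) with hm
  have m0 : 0 ≤ m := div_nonneg (sum_nonneg fun y hy => h0 y (hYV hy)) (pos Y hYn).le
  rcases m0.eq_or_lt with e | mp
  · refine ⟨Y, fun _ _ => 0, hYn, hYV, fun _ _ => le_rfl, fun U _ _ => ?_, fun y hy Q _ => ?_⟩
    · rw [← hm, ← e]; simp
    · simpa using h0 y hy
  obtain ⟨a, a0, a1, a2⟩ := assign V (fun y => c y / m) (fun Z hZ => by
    rcases Z.eq_empty_or_nonempty with rfl | hn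
    · simp
    have := hmin Z (mem_filter.2 ⟨mem_powerset.2 hZ, hn⟩)
    rw [le_div_iff₀ (pos Z hn)] at this
    rw [← sum_div, le_div_iff₀ mp]
    linarith)
  refine ⟨Y, fun U y => m * a U y, hYn, hYV, fun U y => mul_nonneg m0 (a0 U y),
    fun U hU hn => ?_, fun y hy Q hQ => ?_⟩
  · rw [← hm, ← mul_sum]
    exact le_mul_of_one_le_right m0 (a1 U hU hn)
  · have := a2 y hy Q hQ
    rw [le_div_iff₀ mp] at this
    rw [← mul_sum]
    linarith

theorem fc_of_weights {X : Finset α} {L : Finset (Finset α)} (hL : ∀ T ∈ L, T ⊆ X ∧ 2 ≤ T.card)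
    (hlin : ∀ T ∈ L, ∀ T' ∈ L, T ≠ T' → (T ∩ T').card ≤ 1) {c : α → ℝ}
    (h0 : ∀ x ∈ X, 0 ≤ c x) (h1 : ∃ x ∈ X, 0 < c x)
    (he : ∀ x ∈ X, ∀ Y : Finset α → Finset α,
      (∀ T ∈ L, x ∈ T → (Y T).Nonempty ∧ Y T ⊆ T.erase x) →
        c x ≤ ∑ T ∈ L.filter (fun T => x ∈ T), (∑ y ∈ Y T, c y) / (2 ^ (Y T).card - 1))
    (F : Finset (Finset α)) (hF : ∀ A ∈ F, ∀ B ∈ F, A ∪ B ∈ F) (hLF : L ⊆ F) :
    ∃ x ∈ X, F.card ≤ 2 * (F.filter (fun S => x ∈ S)).card := by
  classical
  have hm := fun x T (hT : T ∈ L) (hx : x ∈ T) => share2 (T.erase x) (card_pos.1 (by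
    have := (hL T hT).2
    rw [card_erase_of_mem hx]
    omega)) c (fun y hy => h0 y ((hL T hT).1 (mem_of_mem_erase hy)))
  choose! Y a y1 y2 a0 a1 a2 using hm
  refine half_of_weighted F X c h0 h1 (wflow hF X c
    (fun x W y => ∑ T ∈ L, if x ∈ T ∧ W ⊆ T then a x T (W.erase x) y else 0) ?_ ?_)
  · intro S x hb
    simp only [blk, mem_filter, mem_product] at hb
    obtain ⟨⟨hS, hx⟩, hxS, hi⟩ := hb
    rw [sum_comm]
    refine (he x hx (Y x) fun T hT hxT => ⟨y1 x T hT hxT, y2 x T hT hxT⟩).trans ?_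
    rw [sum_filter]
    refine sum_le_sum (fun T hT => ?_)
    split_ifs with b
    swap
    · simp [b]
    obtain ⟨W, hW, hm⟩ := exists_move hF hS (hLF hT) b hxS
    have hne : (W.erase x).Nonempty := by
      by_contra h
      rw [not_nonempty_iff_eq_empty, erase_eq_empty_iff] at h
      have h2 := hm.2.2.2.1
      rcases h with h | h
      · exact absurd (h ▸ hm.2.1) (notMem_empty x)
      · rw [h, union_comm, ← insert_eq] at h2
        exact hi h2
    calc _ ≤ ∑ y ∈ W.erase x, a x T (W.erase x) y :=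
          a1 x T hT b _ (erase_subset_erase x hW) hne
      _ = ∑ u ∈ ({W} : Finset (Finset α)) ×ˢ W.erase x,
          (if x ∈ T ∧ u.1 ⊆ T then a x T (u.1.erase x) u.2 else 0) := by
          rw [sum_product, sum_singleton]
          simp only [if_pos (And.intro b hW)]
      _ ≤ _ := by
          refine sum_le_sum_of_subset_of_nonneg (fun u hu => ?_) (fun u hu _ => ?_)
          · simp only [mem_product, mem_singleton, mem_erase] at hu
            simp only [mem_filter, mem_product, mem_powerset, hu.1]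
            exact ⟨⟨hW.trans (hL T hT).1, (hL T hT).1 (hW hu.2.2)⟩, hm, hu.2.2, hu.2.1⟩
          · split_ifs with h
            · exact a0 x T hT b _ _
            · exact le_rfl
  · intro y hy M h2 h3
    rcases M.eq_empty_or_nonempty with rfl | ⟨p0, hp0⟩
    · simpa using h0 y hy
    rw [sum_comm]
    have k1 : ∀ T ∈ L, ∑ p ∈ M, (if p.1 ∈ T ∧ p.2 ⊆ T then a p.1 T (p.2.erase p.1) y else 0) ≤
        if p0.1 ∈ T ∧ y ∈ T then c y else 0 := by
      intro T hT
      rw [← sum_filter]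
      set M' := M.filter (fun p => p.1 ∈ T ∧ p.2 ⊆ T) with hM'
      split_ifs with hc
      swap
      · rw [sum_eq_zero]
        intro p hp
        obtain ⟨hp1, hp2⟩ := mem_filter.1 hp
        exact absurd ⟨hp2.2 (h3 p0 hp0 p hp1), hp2.2 (h2 p hp1).2.1⟩ hc
      set Q := M'.image Prod.fst with hQ
      rw [← sum_fiberwise_of_maps_to (t := Q) (g := Prod.fst) (fun p hp => mem_image_of_mem _ hp)]
      rcases Q.eq_empty_or_nonempty with hQ0 | hQ0
      · rw [hQ0, sum_empty]; exact h0 y hy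
      have hq : (0 : ℝ) < Q.card := by exact_mod_cast card_pos.2 hQ0
      have e2 : ∀ x ∈ Q, ∑ p ∈ M'.filter (fun p => p.1 = x), a p.1 T (p.2.erase p.1) y
          ≤ c y / Q.card := by
        intro x hx
        obtain ⟨p1, hp1, rfl⟩ := mem_image.1 hx
        obtain ⟨p11, p12⟩ := mem_filter.1 hp1
        have b := a2 p1.1 T hT p12.1 y (mem_erase.2 ⟨(h2 p1 p11).2.2, hc.2⟩) (Q.erase p1.1)
          (fun z hz => by
            obtain ⟨z1, z2⟩ := mem_erase.1 hz
            obtain ⟨q, hq, rfl⟩ := mem_image.1 z2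
            obtain ⟨q1, q2⟩ := mem_filter.1 hq
            exact mem_erase.2 ⟨(h2 q q1).2.2.symm, mem_erase.2 ⟨z1, q2.1⟩⟩)
        have e : (((Q.erase p1.1).card : ℝ) + 1) = Q.card := by
          exact_mod_cast card_erase_add_one hx
        rw [e, mul_comm, ← le_div_iff₀ hq] at b
        refine le_trans ?_ b
        have hinj : Set.InjOn (fun p : α × Finset α => p.2.erase p1.1)
            (M'.filter (fun p => p.1 = p1.1) : Finset _) := by
          intro p hp q hq e
          rw [mem_coe, mem_filter] at hp hq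
          have e : p.2.erase p1.1 = q.2.erase p1.1 := e
          refine Prod.ext (hp.2.trans hq.2.symm) ?_
          rw [← insert_erase (h3 p1 p11 p (mem_filter.1 hp.1).1), e,
            insert_erase (h3 p1 p11 q (mem_filter.1 hq.1).1)]
        rw [sum_congr rfl (g := fun p => a p1.1 T (p.2.erase p1.1) y)
          (fun p hp => by rw [(mem_filter.1 hp).2]),
          ← sum_image (f := fun U => a p1.1 T U y) hinj]
        refine sum_le_sum_of_subset_of_nonneg (fun U hU => ?_)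
          (fun U _ _ => a0 p1.1 T hT p12.1 U y)
        obtain ⟨p, hp, rfl⟩ := mem_image.1 hU
        obtain ⟨q1, q2⟩ := mem_filter.1 (mem_filter.1 hp).1
        refine mem_filter.2 ⟨mem_powerset.2 (erase_subset_erase _ q2.2), insert_subset
          (mem_erase.2 ⟨(h2 p1 p11).2.2, (h2 p q1).2.1⟩) (erase_subset_erase _ fun z hz => ?_)⟩
        obtain ⟨q, hq, rfl⟩ := mem_image.1 hz
        exact h3 q (mem_filter.1 hq).1 p q1
      refine (sum_le_sum e2).trans ?_
      rw [sum_const, nsmul_eq_mul, mul_div_cancel₀ _ hq.ne']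
    refine (sum_le_sum k1).trans ?_
    rw [← sum_filter, sum_const, nsmul_eq_mul]
    have k2 : (L.filter (fun T => p0.1 ∈ T ∧ y ∈ T)).card ≤ 1 := by
      refine card_le_one.2 (fun T hT T' hT' => ?_)
      simp only [mem_filter] at hT hT'
      exact line_eq hlin hT.1 hT'.1 (h2 p0 hp0).2.2 hT.2.1 hT.2.2 hT'.2.1 hT'.2.2
    exact mul_le_of_le_one_left (h0 y hy) (by exact_mod_cast k2)

end Pool.Agent.FS.LinearFC
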