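import Mathlib

namespace Pool.Agent.FS.LinearFC

open Finset

theorem ville {ι κ : Type*} (I : Finset ι) (J : Finset κ) (A : ι → κ → ℝ) :
    (∃ c : κ → ℝ, (∀ j, 0 ≤ c j) ∧ (∃ j ∈ J, 0 < c j) ∧ ∀ i ∈ I, 0 ≤ ∑ j ∈ J, A i j * c j) ∨
      ∃ l : ι → ℝ, (∀ i, 0 ≤ l i) ∧ ∀ j ∈ J, ∑ i ∈ I, l i * A i j < 0 := by
  classical
  by_cases h : ∃ l : ι → ℝ, (∀ i, 0 ≤ l i) ∧ ∀ j ∈ J, ∑ i ∈ I, l i * A i j < 0
  · exact Or.inr h
  left
  have s1 : Convex ℝ {v : J → ℝ | ∀ j, v j < 0} := by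
    intro x hx y hy a b ha hb hab j
    have h1 := hx j
    have h2 := hy j
    simp only [Pi.add_apply, Pi.smul_apply, smul_eq_mul]
    rcases ha.eq_or_lt with rfl | ha'
    · have : b = 1 := by linarith
      rw [this]
      linarith
    · have h3 := mul_neg_of_pos_of_neg ha' h1
      have h4 := mul_nonpos_of_nonneg_of_nonpos hb h2.le
      linarith
  have s2 : IsOpen {v : J → ℝ | ∀ j, v j < 0} := by
    rw [Set.ofPred_forall]
    exact isOpen_iInter_of_finite fun j => isOpen_lt (continuous_apply j) continuous_const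
  have t1 : Convex ℝ
      {v : J → ℝ | ∃ l : ι → ℝ, (∀ i, 0 ≤ l i) ∧ ∀ j : J, v j = ∑ i ∈ I, l i * A i j} := by
    rintro x ⟨l, hl, hx⟩ y ⟨m, hm, hy⟩ a b ha hb _
    refine ⟨fun i => a * l i + b * m i, fun i => add_nonneg (mul_nonneg ha (hl i))
      (mul_nonneg hb (hm i)), fun j => ?_⟩
    simp only [Pi.add_apply, Pi.smul_apply, smul_eq_mul]
    rw [hx j, hy j, mul_sum, mul_sum, ← sum_add_distrib]
    exact sum_congr rfl fun i _ => by ring
  have dj : Disjoint {v : J → ℝ | ∀ j, v j < 0}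
      {v : J → ℝ | ∃ l : ι → ℝ, (∀ i, 0 ≤ l i) ∧ ∀ j : J, v j = ∑ i ∈ I, l i * A i j} := by
    rw [Set.disjoint_left]
    rintro v hv ⟨l, hl, e⟩
    exact h ⟨l, hl, fun j hj => by rw [← e ⟨j, hj⟩]; exact hv ⟨j, hj⟩⟩
  obtain ⟨f, u, f1, f2⟩ := geometric_hahn_banach_open s1 s2 t1 dj
  obtain ⟨d, hd⟩ : ∃ d : J → ℝ, ∀ v : J → ℝ, f v = ∑ j, v j * d j :=
    ⟨fun j => f fun i => if j = i then 1 else 0, fun v =>
      LinearMap.pi_apply_eq_sum_univ (f : (J → ℝ) →ₗ[ℝ] ℝ) v⟩
  have u0 : u ≤ 0 := by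
    have := f2 0 ⟨fun _ => 0, fun _ => le_rfl, fun j => by simp⟩
    simpa using this
  have m1 : -∑ j, d j < u := by
    have := f1 (fun _ => -1) fun j => by norm_num
    rw [hd] at this
    simpa using this
  have d0 : ∀ j, 0 ≤ d j := by
    intro j
    by_contra hj
    have hj' : 0 < -d j := by linarith [not_le.1 hj]
    have ht : 0 ≤ (u + ∑ k, d k) / -d j := div_nonneg (by linarith) hj'.le
    have e : (u + ∑ k, d k) / -d j * -d j = u + ∑ k, d k := div_mul_cancel₀ _ hj'.ne'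
    generalize (u + ∑ k, d k) / -d j = t at ht e
    have := f1 (fun k => -1 - if k = j then t else 0) fun k => by
      show -1 - (if k = j then t else 0) < 0
      split_ifs <;> linarith
    rw [hd] at this
    simp only [sub_mul, sum_sub_distrib, ite_mul, zero_mul, sum_ite_eq', mem_univ, if_true,
      neg_mul, one_mul, sum_neg_distrib] at this
    linarith
  have row : ∀ i ∈ I, 0 ≤ ∑ j : J, A i j * d j := by
    intro i hi
    by_contra hn
    have hn' : 0 < -∑ j : J, A i j * d j := by linarith [not_le.1 hn]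
    have ht : 0 ≤ (1 - u) / -∑ j : J, A i j * d j := div_nonneg (by linarith) hn'.le
    have e : (1 - u) / (-∑ j : J, A i j * d j) * -∑ j : J, A i j * d j = 1 - u :=
      div_mul_cancel₀ _ hn'.ne'
    generalize (1 - u) / (-∑ j : J, A i j * d j) = t at ht e
    have := f2 (fun j => t * A i j) ⟨fun k => if k = i then t else 0,
      fun k => by dsimp only; split_ifs <;> linarith, fun j => by simp [hi]⟩
    rw [hd] at this
    simp only [mul_assoc, ← mul_sum] at this
    linarith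
  refine ⟨fun k => if hk : k ∈ J then d ⟨k, hk⟩ else 0, fun k => ?_, ?_, fun i hi => ?_⟩
  · show 0 ≤ if hk : k ∈ J then d ⟨k, hk⟩ else 0
    split_ifs
    · exact d0 _
    · exact le_rfl
  · by_contra hn
    have : ∑ j, d j ≤ 0 := sum_nonpos fun j _ => not_lt.1 fun hj =>
      hn ⟨j, j.2, by simpa using hj⟩
    linarith
  · rw [← sum_coe_sort J]
    simpa using row i hi

end Pool.Agent.FS.LinearFC
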