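import Pool.Agent.FS.LinearFC.GlueR
import Pool.Agent.FS.LinearFC.Ville
import Pool.Agent.FS.LinearSpaces.Main

/-! Test families from shrunken lines. -/

namespace Pool.Agent.FS.LinearFC

open Finset Pool.Agent.FS.LinearSpaces

variable {α : Type*} [DecidableEq α] {X : Finset α} {L : Finset (Finset α)}

/-- the normalised surplus of the point `z` in the test family at `x` -/
noncomputable def sur (x : α) (K : Finset (Finset α)) (z : α) : ℝ :=
  (if z = x then -1 else 0) + ∑ R ∈ K, if z ∈ R.erase x then 1 / ((2 : ℝ) ^ (R.card - 1) - 1) else 0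

theorem good_le {K : Finset (Finset α)} {x z : α} (hK : ∀ T ∈ K, T ⊆ X ∧ 2 ≤ T.card)
    (hlin : ∀ T ∈ K, ∀ T' ∈ K, T ≠ T' → (T ∩ T').card ≤ 1) (hz : z ∈ X) :
    ((∑ S ∈ good X K x, sg z S : ℤ) : ℝ) ≤ (bad X K x).card * sur x K z := by
  unfold sur
  by_cases e : z = x
  · subst e
    rw [sum_good_self hz]
    simp
  rw [if_neg e, zero_add]
  have h3 : ((∑ S ∈ good X K x, sg z S : ℤ) : ℝ) ≤ ((edge X K x z).card : ℝ) := by
    exact_mod_cast sum_good_le (L := K) (x := x) hz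
  refine h3.trans ?_
  have hnn : ∀ T ∈ K,
      (0 : ℝ) ≤ (if z ∈ T.erase x then 1 / ((2 : ℝ) ^ (T.card - 1) - 1) else 0) := by
    intro T hT
    have := den_pos (hK T hT).2
    split_ifs
    · positivity
    · exact le_rfl
  rcases (edge X K x z).eq_empty_or_nonempty with h0 | ⟨S0, hS0⟩
  · rw [h0, card_empty, Nat.cast_zero]
    exact mul_nonneg (by positivity) (sum_nonneg hnn)
  obtain ⟨T, hT, hxT, hzT, -⟩ := edge_line hz hS0
  refine le_trans ?_ (mul_le_mul_of_nonneg_left (single_le_sum hnn hT) (by positivity))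
  rw [if_pos (mem_erase.2 ⟨e, hzT⟩), mul_one_div, le_div_iff₀ (den_pos (hK T hT).2)]
  have h8 : (((edge X K x z).card * (2 ^ (T.card - 1) - 1) : ℕ) : ℝ)
      ≤ ((bad X K x).card : ℝ) := by exact_mod_cast edge_card hK hlin hz e hT hxT hzT
  rwa [Nat.cast_mul, Nat.cast_sub Nat.one_le_two_pow, Nat.cast_pow, Nat.cast_ofNat,
    Nat.cast_one] at h8

theorem sur_sum {K : Finset (Finset α)} {x : α} (hK : ∀ T ∈ K, T ⊆ X ∧ 2 ≤ T.card) (hx : x ∈ X)
    (c : α → ℝ) : ∑ z ∈ X, sur x K z * c z =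
      - c x + ∑ R ∈ K, (∑ y ∈ R.erase x, c y) / (2 ^ (R.card - 1) - 1) := by
  simp only [sur, add_mul, sum_add_distrib, sum_mul, ite_mul, zero_mul]
  rw [sum_ite_eq' X x, if_pos hx, sum_comm]
  congr 1
  · ring
  refine sum_congr rfl (fun R hR => ?_)
  rw [← sum_filter, filter_mem_eq_inter,
    inter_eq_right.2 ((erase_subset _ _).trans (hK R hR).1), sum_div]
  exact sum_congr rfl (fun y _ => by ring)

theorem weights_of_fc [Infinite α] (hX : X.Nonempty) (hL : ∀ T ∈ L, T ⊆ X ∧ 2 ≤ T.card)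
    (hlin : ∀ T ∈ L, ∀ T' ∈ L, T ≠ T' → (T ∩ T').card ≤ 1)
    (h : ∀ F : Finset (Finset α), (∀ A ∈ F, ∀ B ∈ F, A ∪ B ∈ F) → L ⊆ F →
      ∃ x ∈ X, F.card ≤ 2 * (F.filter (fun S => x ∈ S)).card) :
    ∃ c : α → ℝ, (∀ x ∈ X, 0 ≤ c x) ∧ (∃ x ∈ X, 0 < c x) ∧ ∀ x ∈ X,
      ∀ Y : Finset α → Finset α, (∀ T ∈ L, x ∈ T → (Y T).Nonempty ∧ Y T ⊆ T.erase x) →
        c x ≤ ∑ T ∈ L.filter (fun T => x ∈ T), (∑ y ∈ Y T, c y) / (2 ^ (Y T).card - 1) := by
  classical
  set I : Finset (α × Finset (Finset α)) := (X ×ˢ X.powerset.powerset).filter (fun i =>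
    (∀ R ∈ i.2, R ⊆ X ∧ 2 ≤ R.card) ∧ (∀ R ∈ i.2, ∀ R' ∈ i.2, R ≠ R' → (R ∩ R').card ≤ 1) ∧
      ∀ T ∈ L, i.1 ∈ T → ∃ R ∈ i.2, i.1 ∈ R ∧ R ⊆ T) with hI
  rcases ville I X (fun i z => sur i.1 i.2 z) with ⟨c, c0, c1, c2⟩ | ⟨l, l0, l1⟩
  · refine ⟨c, fun x _ => c0 x, c1, fun x hx Y hY => ?_⟩
    have hxY : ∀ T ∈ L, x ∈ T → x ∉ Y T := fun T hT hxT h => notMem_erase x T ((hY T hT hxT).2 h)
    have hsub : ∀ T ∈ L, x ∈ T → insert x (Y T) ⊆ T := fun T hT hxT =>
      insert_subset hxT ((hY T hT hxT).2.trans (erase_subset _ _))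
    set K := (L.filter (fun T => x ∈ T)).image (fun T => insert x (Y T)) with hK
    have k1 : ∀ R ∈ K, R ⊆ X ∧ 2 ≤ R.card := by
      intro R hR
      obtain ⟨T, hT, rfl⟩ := mem_image.1 hR
      obtain ⟨a, b⟩ := mem_filter.1 hT
      have := card_pos.2 (hY T a b).1
      exact ⟨(hsub T a b).trans (hL T a).1, by rw [card_insert_of_notMem (hxY T a b)]; omega⟩
    have k2 : (x, K) ∈ I := by
      refine mem_filter.2 ⟨mem_product.2 ⟨hx, mem_powerset.2 fun R hR =>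
        mem_powerset.2 (k1 R hR).1⟩, k1, fun R hR R' hR' hne => ?_, fun T hT hxT => ?_⟩
      · obtain ⟨T, hT, rfl⟩ := mem_image.1 hR
        obtain ⟨T', hT', rfl⟩ := mem_image.1 hR'
        obtain ⟨a, b⟩ := mem_filter.1 hT
        obtain ⟨a', b'⟩ := mem_filter.1 hT'
        exact (card_le_card (inter_subset_inter (hsub T a b) (hsub T' a' b'))).trans
          (hlin T a T' a' fun e => hne (by rw [e]))
      · exact ⟨_, mem_image_of_mem _ (mem_filter.2 ⟨hT, hxT⟩), mem_insert_self _ _, hsub T hT hxT⟩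
    have k3 := c2 _ k2
    rw [sur_sum k1 hx] at k3
    have k4 : ∑ R ∈ K, (∑ y ∈ R.erase x, c y) / (2 ^ (R.card - 1) - 1) ≤
        ∑ T ∈ L.filter (fun T => x ∈ T), (∑ y ∈ (insert x (Y T)).erase x, c y) /
          (2 ^ ((insert x (Y T)).card - 1) - 1) :=
      sum_image_le_of_nonneg (fun R hR =>
        div_nonneg (sum_nonneg fun y _ => c0 y) (den_pos (k1 R hR).2).le)
    have k5 : ∑ T ∈ L.filter (fun T => x ∈ T), (∑ y ∈ (insert x (Y T)).erase x, c y) /
          (2 ^ ((insert x (Y T)).card - 1) - 1) =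
        ∑ T ∈ L.filter (fun T => x ∈ T), (∑ y ∈ Y T, c y) / (2 ^ (Y T).card - 1) := by
      refine sum_congr rfl (fun T hT => ?_)
      obtain ⟨a, b⟩ := mem_filter.1 hT
      rw [erase_insert (hxY T a b), card_insert_of_notMem (hxY T a b), Nat.add_sub_cancel]
    linarith
  · obtain ⟨F, hF, hLF, hlt⟩ := glue_real X hX L (fun T hT => (hL T hT).1) I
      (fun i => good X i.2 i.1) (fun i _ S hS => (mem_good.1 hS).1)
      (fun i _ S hS S' hS' => good_union hS hS')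
      (fun i hi S hS T hT => good_union (mem_good.2 ⟨(hL T hT).1,
        (mem_filter.1 hi).2.2.2 T hT⟩) hS)
      (fun i => l i / (bad X i.2 i.1).card) (fun i => div_nonneg (l0 i) (by positivity))
      (fun z hz => lt_of_le_of_lt (sum_le_sum fun i hi => by
        obtain ⟨a, b, d, -⟩ := mem_filter.1 hi
        have p : (0 : ℝ) < (bad X i.2 i.1).card := by
          exact_mod_cast bad_pos b (mem_product.1 a).1
        refine (mul_le_mul_of_nonneg_left (good_le b d hz) (div_nonneg (l0 i) p.le)).trans_eq ?_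
        field_simp) (l1 z hz))
    obtain ⟨x, hx, hle⟩ := h F hF hLF
    exact absurd (hlt x hx) (not_lt.2 hle)

end Pool.Agent.FS.LinearFC
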